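import Pool.Agent.H505R3.SLM.Stmts

set_option autoImplicit false

namespace Pool.Agent.H393R3.SLM

open Pool.Agent.H505R3.SLM

theorem numbersE {N : ℕ} (hN : 2 ^ 24 ≤ N) : ∃ a p : ℕ, 2 ≤ a ∧
    N = (a + a) * (4 * a + a) + a * (2 * a + a + 2) + (3 * a + a + 1) + p ∧
    ∀ m : ℕ, (a - 1) ^ (a * ((a + a) * (a * a)) - 2) ≤
      2 ^ (3 * m) * 3 ^ (a * ((a + a) * (a * a))) → N ^ 2 * Nat.log 2 N ≤ 1000 * m := by
  obtain ⟨b, hb⟩ : ∃ b, b = Nat.sqrt (N / 13) := ⟨_, rfl⟩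
  have hb1 : b * b ≤ N / 13 := by rw [hb]; exact Nat.sqrt_le _
  have hb2 : N / 13 < (b + 1) * (b + 1) := by rw [hb]; exact Nat.lt_succ_sqrt _
  have hb3 : 1136 ≤ b := by
    by_contra h
    push Not at h
    have : (b + 1) * (b + 1) ≤ 1136 * 1136 := Nat.mul_le_mul (by omega) (by omega)
    omega
  obtain ⟨a, rfl⟩ : ∃ a, b = a + 1 := ⟨b - 1, by omega⟩
  have hN1 : 13 * ((a + 1) * (a + 1)) ≤ N := by omega
  have hN2 : N < 13 * ((a + 2) * (a + 2)) := by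
    have : (a + 1 + 1) * (a + 1 + 1) = (a + 2) * (a + 2) := by ring
    omega
  have e1 : (a + a) * (4 * a + a) + a * (2 * a + a + 2) + (3 * a + a + 1) =
      13 * (a * a) + 6 * a + 1 := by
    ring
  have e2 : 13 * ((a + 1) * (a + 1)) = 13 * (a * a) + 26 * a + 13 := by ring
  refine ⟨a, N - (13 * (a * a) + 6 * a + 1), by omega, by rw [e1]; omega, fun m hm => ?_⟩
  obtain ⟨ℓ, hℓ⟩ : ∃ ℓ, ℓ = Nat.log 2 (a - 1) := ⟨_, rfl⟩
  have h1 : 2 ^ ℓ ≤ a - 1 := by rw [hℓ]; exact Nat.pow_log_le_self 2 (by omega)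
  have h2 : a - 1 < 2 ^ (ℓ + 1) := by rw [hℓ]; exact Nat.lt_pow_succ_log_self (by norm_num) _
  have h3 : 10 ≤ ℓ := by
    by_contra h
    push Not at h
    have : 2 ^ (ℓ + 1) ≤ 2 ^ 10 := Nat.pow_le_pow_right (by norm_num) (by omega)
    omega
  obtain ⟨A, hA⟩ : ∃ A, A = a * a * (a * a) := ⟨_, rfl⟩
  have hD : a * ((a + a) * (a * a)) = 2 * A := by rw [hA]; ring
  rw [hD] at hm
  have hA1 : 4 ≤ A := by
    rw [hA]
    have : 2 * 2 ≤ a * a := Nat.mul_le_mul (by omega) (by omega)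
    nlinarith
  have h4 : ℓ * (2 * A - 2) ≤ 3 * m + 2 * (2 * A) := by
    have h5 : 2 ^ (ℓ * (2 * A - 2)) ≤ 2 ^ (3 * m + 2 * (2 * A)) := by
      rw [pow_mul, pow_add]
      refine (Nat.pow_le_pow_left h1 _).trans (hm.trans ?_)
      refine Nat.mul_le_mul_left _ ?_
      rw [pow_mul 2 2]
      exact Nat.pow_le_pow_left (by norm_num) _
    exact (Nat.pow_le_pow_iff_right (by norm_num)).mp h5
  have h6 : 16 * (a + 2) ≤ 17 * 2 ^ (ℓ + 1) := by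
    have : 2 ^ 11 ≤ 2 ^ (ℓ + 1) := Nat.pow_le_pow_right (by norm_num) (by omega)
    omega
  have h7 : N < 2 ^ (2 * ℓ + 6) := by
    have e : 2 ^ (2 * ℓ + 6) = 16 * (2 ^ (ℓ + 1) * 2 ^ (ℓ + 1)) := by
      rw [show (16 : ℕ) = 2 ^ 4 by norm_num, ← pow_add, ← pow_add]
      congr 1
      ring
    have h61 := Nat.mul_le_mul h6 h6
    have e5 : 16 * (a + 2) * (16 * (a + 2)) = 256 * ((a + 2) * (a + 2)) := by ring
    have e6 : 17 * 2 ^ (ℓ + 1) * (17 * 2 ^ (ℓ + 1)) = 289 * (2 ^ (ℓ + 1) * 2 ^ (ℓ + 1)) := by ring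
    rw [e5, e6] at h61
    rw [e]
    omega
  have h8 : Nat.log 2 N ≤ 2 * ℓ + 5 := by
    have := Nat.log_lt_of_lt_pow (by omega : N ≠ 0) h7
    omega
  have h9 : 280 * ((a + 2) * (a + 2)) ≤ 281 * (a * a) := by
    have h91 : 1135 * a ≤ a * a := Nat.mul_le_mul_right _ (by omega)
    have e : (a + 2) * (a + 2) = a * a + 4 * a + 4 := by ring
    rw [e]
    nlinarith
  have h10 : N ^ 2 ≤ 171 * A := by
    have h11 : 280 * N ≤ 13 * (281 * (a * a)) := by omega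
    have h12 : (280 * N) * (280 * N) ≤ (13 * (281 * (a * a))) * (13 * (281 * (a * a))) :=
      Nat.mul_le_mul h11 h11
    have e3 : (280 * N) * (280 * N) = 78400 * N ^ 2 := by ring
    have e4 : (13 * (281 * (a * a))) * (13 * (281 * (a * a))) = 13344409 * A := by
      rw [hA]; ring
    rw [e3, e4] at h12
    omega
  have h13 : N ^ 2 * Nat.log 2 N ≤ (171 * A) * (2 * ℓ + 5) := Nat.mul_le_mul h10 h8
  have h14 : 2 * (ℓ * A) ≤ 3 * m + 4 * A + 2 * ℓ := by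
    have e7 : ℓ * (2 * A - 2) + 2 * ℓ = 2 * (ℓ * A) := by
      have : 2 * A - 2 + 2 = 2 * A := by omega
      calc ℓ * (2 * A - 2) + 2 * ℓ = ℓ * (2 * A - 2 + 2) := by ring
        _ = 2 * (ℓ * A) := by rw [this]; ring
    omega
  have e8 : (171 * A) * (2 * ℓ + 5) = 342 * (ℓ * A) + 855 * A := by ring
  have h15 : 10 * A ≤ ℓ * A := Nat.mul_le_mul_right _ h3
  have h16 : ℓ * 4 ≤ ℓ * A := Nat.mul_le_mul_left _ hA1
  have h17 : 1135 ≤ A := by
    rw [hA]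
    have : 2 * 2 ≤ a * a := Nat.mul_le_mul (by omega) (by omega)
    nlinarith
  have h18 : ℓ * 1135 ≤ ℓ * A := Nat.mul_le_mul_left _ h17
  rw [e8] at h13
  omega

theorem taskE : TaskE := fun _ hN => numbersE hN

end Pool.Agent.H393R3.SLM
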